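import Pool.Agent.H38.Dehn.Fam

/-!
Dehn presentations of hyperbolic groups cannot be computed in polynomial time: they can be
superpolynomially larger than the input presentation, even if the generators may change.
-/

namespace Pool.Agent.Results.MP_0fd394_lc.NoPoly

open Pool.Agent.H38.NP Pool.Agent.H38.Dehn

theorem result :
    ¬ ∃ f, PolyTime f ∧ ∀ P : Pres, Hyperbolic P →
      ∃ Q : Pres, f (enc P) = enc Q ∧ Nonempty (P.Grp ≃* Q.Grp) ∧ IsDehn Q :=
  no_alg

end Pool.Agent.Results.MP_0fd394_lc.NoPoly
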